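import Mathlib

/-!
# Perfect tilings by equilateral triangles: the cells and the subdivision step

Skew coordinates: an equilateral triangle becomes a right isosceles triangle with two sides
parallel to the axes. A cell is a rectangle `[x, x + w] × [y₀, y₀ + h]` standing on a horizontal
base line `y = y₀` that is already covered.
-/

set_option autoImplicit false

namespace Pool.Agent.H342R2.EqTri

/-- a fresh cell: it will get a triangle of size `w` at its top -/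
def VFr (w h : ℝ) (m : ℕ) : Prop :=
  0 < w ∧ w < h ∧ 2 ≤ m ∧ 11/4*(1+7/8*m)*(h-w) < h ∧ h < 3*(1+m)*(h-w)

/-- a cell that will be cut vertically -/
def VNf (w h : ℝ) (m : ℕ) : Prop := 0 < h ∧ 2 ≤ m ∧ 7/8*m*h < w ∧ w < m*h

lemma VNf.w_pos {w h : ℝ} {m : ℕ} (H : VNf w h m) : 0 < w := by
  obtain ⟨h1, _, h3, _⟩ := H
  have : (0:ℝ) ≤ 7/8*m*h := by positivity
  linarith

lemma frStep {w h : ℝ} {m : ℕ} (H : VFr w h m) :
    ∃ a b : ℝ, a < b ∧ ∀ p ∈ Set.Ioo a b, 0 < p ∧ p < w ∧ VNf p (h-w) 2 ∧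
      VNf (w-p) (h-w+p) m := by
  obtain ⟨hw, hwh, hm, h1, h2⟩ := H
  have hm' : (2:ℝ) ≤ m := by exact_mod_cast hm
  set d := h - w with hd
  have hd0 : 0 < d := by rw [hd]; linarith
  have hA : (0:ℝ) < 1 + m := by linarith
  have hB : (0:ℝ) < 1 + 7/8*m := by linarith
  refine ⟨max (7/4*d) (h/(1+m) - d), min (2*d) (h/(1+7/8*m) - d), ?_, ?_⟩
  · rw [max_lt_iff, lt_min_iff, lt_min_iff]
    refine ⟨⟨by linarith, ?_⟩, ?_, ?_⟩
    · rw [lt_sub_iff_add_lt, lt_div_iff₀ hB]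
      nlinarith
    · rw [sub_lt_iff_lt_add, div_lt_iff₀ hA]
      nlinarith
    · have : h/(1+m) < h/(1+7/8*m) := by
        apply div_lt_div_of_pos_left (by linarith) hB
        linarith
      linarith
  · intro p hp
    obtain ⟨hp1, hp2⟩ := hp
    rw [max_lt_iff] at hp1
    rw [lt_min_iff] at hp2
    obtain ⟨ha1, ha2⟩ := hp1
    obtain ⟨hb1, hb2⟩ := hp2
    rw [sub_lt_iff_lt_add, div_lt_iff₀ hA] at ha2
    rw [lt_sub_iff_add_lt, lt_div_iff₀ hB] at hb2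
    have hp0 : 0 < p := by linarith
    have hh : h = w + d := by rw [hd]; ring
    have hpw : p < w := by
      nlinarith
    refine ⟨hp0, hpw, ⟨hd0, le_refl _, by push_cast; linarith, by push_cast; linarith⟩,
      ⟨by linarith, hm, by nlinarith, by nlinarith⟩⟩

lemma good1 {p h : ℝ} (h0 : 0 < h) (h1 : 7/8*h < p) (h2 : p < 8/9*h) : VFr p h 2 := by
  refine ⟨by linarith, by linarith, le_refl _, by push_cast; linarith, by push_cast; linarith⟩

lemma good2 {p h : ℝ} (h0 : 0 < h) (h1 : 9/10*h < p) (h2 : p < 11/12*h) : VFr p h 3 := by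
  refine ⟨by linarith, by linarith, by norm_num, by push_cast; linarith, by push_cast; linarith⟩

lemma good3 {p h : ℝ} (h0 : 0 < h) (h1 : 12/13*h < p) (h2 : p < h) : ∃ m, VFr p h m := by
  rcases lt_or_ge (h - p) (h/14) with h3 | h3
  · have hd : 0 < 3*(h - p) := by linarith
    have hx : 0 ≤ h/(3*(h-p)) := by positivity
    have e1 := Nat.floor_le hx
    have e2 := Nat.lt_floor_add_one (h/(3*(h-p)))
    set m := ⌊h/(3*(h-p))⌋₊ with hm
    rw [le_div_iff₀ hd] at e1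
    rw [div_lt_iff₀ hd] at e2
    have hm2 : 2 ≤ m := by
      rw [hm]
      apply Nat.le_floor
      rw [le_div_iff₀ hd]
      push_cast
      linarith
    refine ⟨m, by linarith, h2, hm2, ?_, ?_⟩
    · nlinarith
    · nlinarith
  · refine ⟨4, by linarith, h2, by norm_num, by push_cast; linarith, by push_cast; linarith⟩

lemma nf2Step {u h : ℝ} (H : VNf u h 2) :
    ∃ a b : ℝ, a < b ∧ ∀ p ∈ Set.Ioo a b, 0 < p ∧ p < u ∧ (∃ m, VFr p h m) ∧
      ∃ m, VFr (u-p) h m := by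
  obtain ⟨h0, _, h1, h2⟩ := H
  push_cast at h1 h2
  rcases lt_or_ge u (16/9*h) with c1 | c1
  · refine ⟨max (7/8*h) (u - 8/9*h), min (8/9*h) (u - 7/8*h), ?_, ?_⟩
    · rw [max_lt_iff, lt_min_iff, lt_min_iff]
      refine ⟨⟨?_, ?_⟩, ?_, ?_⟩ <;> linarith
    · rintro p ⟨hp1, hp2⟩
      rw [max_lt_iff] at hp1
      rw [lt_min_iff] at hp2
      refine ⟨by linarith, by linarith, ⟨2, good1 h0 hp1.1 hp2.1⟩, ⟨2, good1 h0 ?_ ?_⟩⟩
      · linarith
      · linarith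
  · rcases lt_or_ge u (9/5*h) with c2 | c2
    · refine ⟨max (7/8*h) (u - 11/12*h), min (8/9*h) (u - 9/10*h), ?_, ?_⟩
      · rw [max_lt_iff, lt_min_iff, lt_min_iff]
        refine ⟨⟨?_, ?_⟩, ?_, ?_⟩ <;> linarith
      · rintro p ⟨hp1, hp2⟩
        rw [max_lt_iff] at hp1
        rw [lt_min_iff] at hp2
        refine ⟨by linarith, by linarith, ⟨2, good1 h0 hp1.1 hp2.1⟩, ⟨3, good2 h0 ?_ ?_⟩⟩
        · linarith
        · linarith
    · rcases lt_or_ge u (188/100*h) with c3 | c3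
      · refine ⟨max (7/8*h) (u - h), min (8/9*h) (u - 12/13*h), ?_, ?_⟩
        · rw [max_lt_iff, lt_min_iff, lt_min_iff]
          refine ⟨⟨?_, ?_⟩, ?_, ?_⟩ <;> linarith
        · rintro p ⟨hp1, hp2⟩
          rw [max_lt_iff] at hp1
          rw [lt_min_iff] at hp2
          refine ⟨by linarith, by linarith, ⟨2, good1 h0 hp1.1 hp2.1⟩, good3 h0 ?_ ?_⟩
          · linarith
          · linarith
      · refine ⟨max (12/13*h) (u - h), min h (u - 12/13*h), ?_, ?_⟩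
        · rw [max_lt_iff, lt_min_iff, lt_min_iff]
          refine ⟨⟨?_, ?_⟩, ?_, ?_⟩ <;> linarith
        · rintro p ⟨hp1, hp2⟩
          rw [max_lt_iff] at hp1
          rw [lt_min_iff] at hp2
          refine ⟨by linarith, by linarith, good3 h0 hp1.1 hp2.1, good3 h0 ?_ ?_⟩
          · linarith
          · linarith

lemma nfmStep {u h : ℝ} {m : ℕ} (H : VNf u h (m+3)) :
    ∃ a b : ℝ, a < b ∧ ∀ p ∈ Set.Ioo a b, 0 < p ∧ p < u ∧ (∃ m, VFr p h m) ∧
      VNf (u-p) h (m+2) := by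
  obtain ⟨h0, _, h1, h2⟩ := H
  push_cast at h1 h2
  have hm : (0:ℝ) ≤ m := Nat.cast_nonneg m
  have hmh : (0:ℝ) ≤ m * h := by positivity
  rcases lt_or_ge (12/13*h) (u - 7/8*(m+2)*h) with c1 | c1
  · refine ⟨max (12/13*h) (u - (m+2)*h), min h (u - 7/8*(m+2)*h), ?_, ?_⟩
    · rw [max_lt_iff, lt_min_iff, lt_min_iff]
      refine ⟨⟨?_, ?_⟩, ?_, ?_⟩ <;> nlinarith
    · rintro p ⟨hp1, hp2⟩
      rw [max_lt_iff] at hp1
      rw [lt_min_iff] at hp2
      refine ⟨by linarith, by nlinarith, good3 h0 hp1.1 hp2.1, ⟨h0, by omega, ?_, ?_⟩⟩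
      · push_cast; linarith
      · push_cast; linarith
  · refine ⟨max (7/8*h) (u - (m+2)*h), min (8/9*h) (u - 7/8*(m+2)*h), ?_, ?_⟩
    · rw [max_lt_iff, lt_min_iff, lt_min_iff]
      refine ⟨⟨?_, ?_⟩, ?_, ?_⟩ <;> nlinarith
    · rintro p ⟨hp1, hp2⟩
      rw [max_lt_iff] at hp1
      rw [lt_min_iff] at hp2
      refine ⟨by linarith, by nlinarith, ⟨2, good1 h0 hp1.1 hp2.1⟩, ⟨h0, by omega, ?_, ?_⟩⟩
      · push_cast; linarith
      · push_cast; linarith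

lemma exists_generic {a b : ℝ} (hab : a < b) (W : ℝ) {S : Set ℝ} (hS : S.Countable) :
    ∃ p ∈ Set.Ioo a b, p ∉ S ∧ W - p ∉ S ∧ p ≠ W - p := by
  have hc : (S ∪ ((fun s => W - s) '' S) ∪ {W/2}).Countable :=
    (hS.union (hS.image _)).union (Set.countable_singleton _)
  have hd := hc.dense_compl ℝ
  obtain ⟨p, hp, hpm⟩ := hd.exists_mem_open isOpen_Ioo (Set.nonempty_Ioo.mpr hab)
  refine ⟨p, hpm, ?_, ?_, ?_⟩
  · intro h; exact hp (Or.inl (Or.inl h))
  · intro h; exact hp (Or.inl (Or.inr ⟨W - p, h, by ring⟩))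
  · intro h
    apply hp
    right
    simp only [Set.mem_singleton_iff]
    linarith

/-- a cell: the rectangle `[x, x+w] × [y₀, y₀+h]` together with its type -/
structure Cell where
  x : ℝ
  w : ℝ
  h : ℝ
  fr : Bool
  m : ℕ

def Valid (c : Cell) : Prop :=
  (c.fr = true → VFr c.w c.h c.m) ∧ (c.fr = false → VNf c.w c.h c.m)

structure Child (c c1 c2 : Cell) : Prop where
  x1 : c1.x = c.x
  x2 : c2.x = c.x + c1.w
  w2 : c2.w = c.w - c1.w
  p1 : 0 < c1.w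
  p2 : c1.w < c.w
  frfr1 : c.fr = true → c1.fr = false
  frfr2 : c.fr = true → c2.fr = false
  frh1 : c.fr = true → c1.h = c.h - c.w
  frh2 : c.fr = true → c2.h = c.h - c.w + c1.w
  nffr1 : c.fr = false → c1.fr = true
  nfh1 : c.fr = false → c1.h = c.h
  nfh2 : c.fr = false → c2.h = c.h
  nfm : c.fr = false → (c2.fr = true ∨ c2.m < c.m)

lemma step (c : Cell) (hc : Valid c) {S : Set ℝ} (hS : S.Countable) :
    ∃ c1 c2 : Cell, Valid c1 ∧ Valid c2 ∧ Child c c1 c2 ∧ c1.w ∉ S ∧ c2.w ∉ S ∧ c1.w ≠ c2.w := by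
  obtain ⟨x, w, h, fr, m⟩ := c
  obtain ⟨hv1, hv2⟩ := hc
  cases fr with
  | true =>
    have hv := hv1 rfl
    simp only at hv
    obtain ⟨a, b, hab, H⟩ := frStep hv
    obtain ⟨p, hp, q1, q2, q3⟩ := exists_generic hab w hS
    obtain ⟨r1, r2, r3, r4⟩ := H p hp
    refine ⟨⟨x, p, h-w, false, 2⟩, ⟨x+p, w-p, h-w+p, false, m⟩, ⟨by simp, fun _ => r3⟩,
      ⟨by simp, fun _ => r4⟩, ?_, q1, q2, q3⟩
    constructor <;> simp [r1, r2]
  | false =>
    have hv := hv2 rfl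
    simp only at hv
    have hm2 : 2 ≤ m := hv.2.1
    rcases Nat.lt_or_ge m 3 with h3 | h3
    · have : m = 2 := by omega
      subst this
      obtain ⟨a, b, hab, H⟩ := nf2Step hv
      obtain ⟨p, hp, q1, q2, q3⟩ := exists_generic hab w hS
      obtain ⟨r1, r2, ⟨m1, r3⟩, ⟨m2, r4⟩⟩ := H p hp
      refine ⟨⟨x, p, h, true, m1⟩, ⟨x+p, w-p, h, true, m2⟩, ⟨fun _ => r3, by simp⟩,
        ⟨fun _ => r4, by simp⟩, ?_, q1, q2, q3⟩
      constructor <;> simp [r1, r2]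
    · obtain ⟨k, rfl⟩ : ∃ k, m = k + 3 := ⟨m - 3, by omega⟩
      obtain ⟨a, b, hab, H⟩ := nfmStep hv
      obtain ⟨p, hp, q1, q2, q3⟩ := exists_generic hab w hS
      obtain ⟨r1, r2, ⟨m1, r3⟩, r4⟩ := H p hp
      refine ⟨⟨x, p, h, true, m1⟩, ⟨x+p, w-p, h, false, k+2⟩, ⟨fun _ => r3, by simp⟩,
        ⟨by simp, fun _ => r4⟩, ?_, q1, q2, q3⟩
      constructor <;> simp [r1, r2]

end Pool.Agent.H342R2.EqTri
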