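import Pool.Agent.H342R2.EqTri1

/-!
# The infinite binary tree of cells, in heap order
-/

set_option autoImplicit false

namespace Pool.Agent.H342R2.EqTri

structure Inv (r : Cell) (S : Set ℝ) (n : ℕ) (f : ℕ → Cell) : Prop where
  root : f 0 = r
  val : ∀ k ≤ 2*n, Valid (f k)
  child : ∀ k < n, Child (f k) (f (2*k+1)) (f (2*k+2))
  avoid : ∀ k, 0 < k → k ≤ 2*n → (f k).w ∉ S
  inj : ∀ i j, i < j → j ≤ 2*n → (f i).w ≠ (f j).w

lemma Inv.step {r : Cell} {S : Set ℝ} (hS : S.Countable) {n : ℕ} {f : ℕ → Cell}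
    (H : Inv r S n f) : ∃ f', Inv r S (n+1) f' ∧ ∀ k ≤ 2*n, f' k = f k := by
  have hS' : (S ∪ (fun k => (f k).w) '' (Set.Iic (2*n))).Countable :=
    hS.union ((Set.finite_Iic (2*n)).countable.image _)
  obtain ⟨c1, c2, v1, v2, hch, a1, a2, a3⟩ := EqTri.step (f n) (H.val n (by omega)) hS'
  have b1 : c1.w ∉ S := fun h => a1 (Or.inl h)
  have b2 : c2.w ∉ S := fun h => a2 (Or.inl h)
  have d1 : ∀ k ≤ 2*n, (f k).w ≠ c1.w := fun k hk h => a1 (Or.inr ⟨k, hk, h⟩)
  have d2 : ∀ k ≤ 2*n, (f k).w ≠ c2.w := fun k hk h => a2 (Or.inr ⟨k, hk, h⟩)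
  let f' : ℕ → Cell := fun k => if k = 2*n+1 then c1 else if k = 2*n+2 then c2 else f k
  have e1 : f' (2*n+1) = c1 := by simp [f']
  have e2 : f' (2*n+2) = c2 := by simp [f']
  have e3 : ∀ k ≤ 2*n, f' k = f k := by
    intro k hk
    simp only [f']
    rw [if_neg (by omega), if_neg (by omega)]
  refine ⟨f', ⟨?_, ?_, ?_, ?_, ?_⟩, e3⟩
  · rw [e3 0 (by omega)]; exact H.root
  · intro k hk
    rcases Nat.lt_or_ge (2*n) k with h1 | h1
    · rcases (show k = 2*n+1 ∨ k = 2*n+2 by omega) with rfl | rfl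
      · rw [e1]; exact v1
      · rw [e2]; exact v2
    · rw [e3 k h1]; exact H.val k h1
  · intro k hk
    rcases Nat.lt_or_ge k n with h1 | h1
    · rw [e3 k (by omega), e3 (2*k+1) (by omega), e3 (2*k+2) (by omega)]
      exact H.child k h1
    · have : k = n := by omega
      subst this
      rw [e3 k (by omega), e1, e2]
      exact hch
  · intro k hk0 hk
    rcases Nat.lt_or_ge (2*n) k with h1 | h1
    · rcases (show k = 2*n+1 ∨ k = 2*n+2 by omega) with rfl | rfl
      · rw [e1]; exact b1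
      · rw [e2]; exact b2
    · rw [e3 k h1]; exact H.avoid k hk0 h1
  · intro i j hij hj
    rcases Nat.lt_or_ge (2*n) j with h1 | h1
    · rcases (show j = 2*n+1 ∨ j = 2*n+2 by omega) with rfl | rfl
      · rw [e1, e3 i (by omega)]; exact d1 i (by omega)
      · rw [e2]
        rcases Nat.lt_or_ge (2*n) i with h2 | h2
        · have : i = 2*n+1 := by omega
          subst this
          rw [e1]; exact a3
        · rw [e3 i h2]; exact d2 i h2
    · rw [e3 j h1, e3 i (by omega)]
      exact H.inj i j hij h1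

/-- the infinite tree of cells -/
structure Tree (r : Cell) (S : Set ℝ) (c : ℕ → Cell) : Prop where
  root : c 0 = r
  val : ∀ k, Valid (c k)
  child : ∀ k, Child (c k) (c (2*k+1)) (c (2*k+2))
  avoid : ∀ k, 0 < k → (c k).w ∉ S
  inj : ∀ i j, i ≠ j → (c i).w ≠ (c j).w

theorem exists_tree (r : Cell) (hr : Valid r) {S : Set ℝ} (hS : S.Countable) :
    ∃ c : ℕ → Cell, Tree r S c := by
  classical
  have h0 : Inv r S 0 (fun _ => r) := by
    refine ⟨rfl, fun _ _ => hr, fun k hk => absurd hk (by omega), ?_, ?_⟩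
    · intro k hk0 hk; omega
    · intro i j hij hj; omega
  let F : (n : ℕ) → {f : ℕ → Cell // Inv r S n f} := fun n =>
    Nat.rec ⟨fun _ => r, h0⟩
      (fun n f => ⟨(Inv.step hS f.2).choose, (Inv.step hS f.2).choose_spec.1⟩) n
  have hF : ∀ n, ∀ k ≤ 2*n, (F (n+1)).1 k = (F n).1 k := fun n =>
    (Inv.step hS (F n).2).choose_spec.2
  have hst : ∀ k n, k ≤ n → (F n).1 k = (F k).1 k := by
    intro k n hkn
    induction n, hkn using Nat.le_induction with
    | base => rfl
    | succ n hn ih => rw [hF n k (by omega), ih]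
  refine ⟨fun k => (F k).1 k, ?_, ?_, ?_, ?_, ?_⟩
  · exact (F 0).2.root
  · intro k; exact (F k).2.val k (by omega)
  · intro k
    have h1 := (F (2*k+2)).2.child k (by omega)
    rw [hst k (2*k+2) (by omega), hst (2*k+1) (2*k+2) (by omega)] at h1
    exact h1
  · intro k hk
    exact (F k).2.avoid k hk (by omega)
  · have key : ∀ i j, i < j → ((F i).1 i).w ≠ ((F j).1 j).w := by
      intro i j hij
      have := (F j).2.inj i j hij (by omega)
      rw [hst i j hij.le] at this
      exact this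
    intro i j hij
    rcases Nat.lt_or_ge i j with h | h
    · exact key i j h
    · exact (key j i (by omega)).symm

end Pool.Agent.H342R2.EqTri
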