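import Pool.Agent.H342R2.EqTri2

/-!
# Tiling a cell
-/

set_option autoImplicit false

namespace Pool.Agent.H342R2.EqTri

/-- the closed triangle with vertices `(x,y)`, `(x+s,y)`, `(x,y-s)` -/
def tri (t : ℝ × ℝ × ℝ) : Set (ℝ × ℝ) :=
  {z | 0 ≤ t.2.2 * (z.1 - t.1) ∧ 0 ≤ t.2.2 * (t.2.1 - z.2) ∧
    t.2.2 * ((z.1 - t.1) + (t.2.1 - z.2)) ≤ t.2.2 * t.2.2}

lemma mem_tri_pos {x y s : ℝ} (hs : 0 < s) {z : ℝ × ℝ} :
    z ∈ tri (x, y, s) ↔ x ≤ z.1 ∧ z.2 ≤ y ∧ (z.1 - x) + (y - z.2) ≤ s := by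
  simp only [tri, Set.mem_ofPred_eq, mul_nonneg_iff_of_pos_left hs, sub_nonneg,
    mul_le_mul_iff_right₀ hs]

lemma mem_tri_neg {x y s : ℝ} (hs : 0 < s) {z : ℝ × ℝ} :
    z ∈ tri (x, y, -s) ↔ z.1 ≤ x ∧ y ≤ z.2 ∧ (x - z.1) + (z.2 - y) ≤ s := by
  simp only [tri, Set.mem_ofPred_eq]
  constructor
  · rintro ⟨h1, h2, h3⟩
    refine ⟨?_, ?_, ?_⟩
    · nlinarith
    · nlinarith
    · have : s * ((x - z.1) + (z.2 - y)) ≤ s * s := by nlinarith
      exact le_of_mul_le_mul_left this hs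
  · rintro ⟨h1, h2, h3⟩
    refine ⟨?_, ?_, ?_⟩
    · nlinarith
    · nlinarith
    · have : s * ((x - z.1) + (z.2 - y)) ≤ s * s := mul_le_mul_of_nonneg_left h3 hs.le
      nlinarith

lemma sep (f : ℝ × ℝ → ℝ) (hf : IsOpenMap f) {A B : Set (ℝ × ℝ)} (a : ℝ)
    (hA : ∀ z ∈ A, f z ≤ a) (hB : ∀ z ∈ B, a ≤ f z) : Disjoint (interior A) (interior B) := by
  rw [Set.disjoint_iff_inter_eq_empty]
  by_contra hne
  rw [← Ne, ← Set.nonempty_iff_ne_empty] at hne
  have hU : IsOpen (interior A ∩ interior B) := isOpen_interior.inter isOpen_interior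
  have hfU := hf _ hU
  have hsub : f '' (interior A ∩ interior B) = {a} := by
    apply Set.Subset.antisymm
    · rintro _ ⟨z, ⟨hz1, hz2⟩, rfl⟩
      exact le_antisymm (hA z (interior_subset hz1)) (hB z (interior_subset hz2))
    · rintro _ rfl
      obtain ⟨z, hz1, hz2⟩ := hne
      exact ⟨z, ⟨hz1, hz2⟩, le_antisymm (hA z (interior_subset hz1)) (hB z (interior_subset hz2))⟩
  rw [hsub] at hfU
  exact not_isOpen_singleton a hfU

lemma sepX {A B : Set (ℝ × ℝ)} (a : ℝ) (hA : ∀ z ∈ A, z.1 ≤ a) (hB : ∀ z ∈ B, a ≤ z.1) :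
    Disjoint (interior A) (interior B) := sep Prod.fst isOpenMap_fst a hA hB

lemma sepY {A B : Set (ℝ × ℝ)} (a : ℝ) (hA : ∀ z ∈ A, z.2 ≤ a) (hB : ∀ z ∈ B, a ≤ z.2) :
    Disjoint (interior A) (interior B) := sep Prod.snd isOpenMap_snd a hA hB

lemma sepD {A B : Set (ℝ × ℝ)} (a : ℝ) (hA : ∀ z ∈ A, z.2 - z.1 ≤ a)
    (hB : ∀ z ∈ B, a ≤ z.2 - z.1) : Disjoint (interior A) (interior B) := by
  refine sep (fun z => z.2 - z.1) ?_ a hA hB
  have hsurj : Function.Surjective
      (ContinuousLinearMap.snd ℝ ℝ ℝ - ContinuousLinearMap.fst ℝ ℝ ℝ) := by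
    intro y
    refine ⟨(0, y), ?_⟩
    simp
  have := (ContinuousLinearMap.snd ℝ ℝ ℝ - ContinuousLinearMap.fst ℝ ℝ ℝ).isOpenMap hsurj
  exact this

/-- the closed region of a cell -/
def reg (y0 : ℝ) (c : Cell) : Set (ℝ × ℝ) :=
  {z | c.x ≤ z.1 ∧ z.1 ≤ c.x + c.w ∧ y0 ≤ z.2 ∧ z.2 ≤ y0 + c.h}

/-- the three tiles attached to a fresh node -/
def tile (c : ℕ → Cell) (y0 : ℝ) (n : ℕ) (k : Fin 3) : ℝ × ℝ × ℝ :=
  if k = 0 then ((c n).x, y0 + (c n).h, (c n).w)
  else if k = 1 then ((c (2*n+1)).x + (c (2*n+1)).w, y0 + (c (2*n+1)).h, -(c (2*n+1)).w)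
  else ((c (2*n+2)).x + (c (2*n+2)).w, y0 + (c (2*n+2)).h, -(c (2*n+2)).w)

def node (n : ℕ) (k : Fin 3) : ℕ := if k = 0 then n else if k = 1 then 2*n+1 else 2*n+2

section
variable {r : Cell} {S : Set ℝ} {c : ℕ → Cell} (T : Tree r S c) (y0 : ℝ)

include T

lemma Tree.w_pos (n : ℕ) : 0 < (c n).w := by
  rcases hfr : (c n).fr with _ | _
  · exact ((T.val n).2 hfr).w_pos
  · exact ((T.val n).1 hfr).1

lemma Tree.h_pos (n : ℕ) : 0 < (c n).h := by
  rcases hfr : (c n).fr with _ | _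
  · exact ((T.val n).2 hfr).1
  · have := (T.val n).1 hfr
    linarith [this.1, this.2.1]

lemma Tree.h1_le (n : ℕ) : (c (2*n+1)).h ≤ (c n).h := by
  rcases hfr : (c n).fr with _ | _
  · exact ((T.child n).nfh1 hfr).le
  · rw [(T.child n).frh1 hfr]
    linarith [T.w_pos n]

lemma Tree.h2_le (n : ℕ) : (c (2*n+2)).h ≤ (c n).h := by
  rcases hfr : (c n).fr with _ | _
  · exact ((T.child n).nfh2 hfr).le
  · rw [(T.child n).frh2 hfr]
    linarith [(T.child n).p2]

lemma Tree.reg1 (n : ℕ) : reg y0 (c (2*n+1)) ⊆ reg y0 (c n) := by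
  rintro z ⟨h1, h2, h3, h4⟩
  have e1 := (T.child n).x1
  have e2 := (T.child n).p2
  have e3 := T.h1_le n
  exact ⟨by linarith, by linarith, h3, by linarith⟩

lemma Tree.reg2 (n : ℕ) : reg y0 (c (2*n+2)) ⊆ reg y0 (c n) := by
  rintro z ⟨h1, h2, h3, h4⟩
  have e1 := (T.child n).x2
  have e2 := (T.child n).p1
  have e3 := T.h2_le n
  have e4 := (T.child n).w2
  exact ⟨by linarith, by linarith, h3, by linarith⟩

lemma Tree.sib (n : ℕ) : Disjoint (interior (reg y0 (c (2*n+1))))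
    (interior (reg y0 (c (2*n+2)))) := by
  have e1 := (T.child n).x1
  have e2 := (T.child n).x2
  apply sepX ((c n).x + (c (2*n+1)).w)
  · rintro z ⟨h1, h2, h3, h4⟩; linarith
  · rintro z ⟨h1, h2, h3, h4⟩; linarith

/-- relation between two nodes -/
lemma Tree.rel : ∀ b a : ℕ, a < b →
    (∃ e, (e = 2*a+1 ∨ e = 2*a+2) ∧ e ≤ b ∧ reg y0 (c b) ⊆ reg y0 (c e)) ∨
      Disjoint (interior (reg y0 (c a))) (interior (reg y0 (c b))) := by
  intro b
  induction b using Nat.strong_induction_on with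
  | _ b ih =>
    intro a hab
    obtain ⟨q, hq⟩ : ∃ q, b = 2*q+1 ∨ b = 2*q+2 := by
      rcases Nat.even_or_odd b with ⟨k, hk⟩ | ⟨k, hk⟩
      · exact ⟨k-1, by omega⟩
      · exact ⟨k, by omega⟩
    have hqb : q < b := by omega
    have hsub : reg y0 (c b) ⊆ reg y0 (c q) := by
      rcases hq with rfl | rfl
      · exact T.reg1 y0 q
      · exact T.reg2 y0 q
    rcases lt_trichotomy q a with h | h | h
    · -- q < a < b
      rcases ih a hab q h with ⟨e, he, hea, hsube⟩ | hdis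
      · right
        have hne : e ≠ b := by omega
        have hsd : Disjoint (interior (reg y0 (c e))) (interior (reg y0 (c b))) := by
          rcases hq with rfl | rfl
          · have : e = 2*q+2 := by omega
            subst this
            exact (T.sib y0 q).symm
          · have : e = 2*q+1 := by omega
            subst this
            exact T.sib y0 q
        exact hsd.mono_left (interior_mono hsube)
      · right
        exact (hdis.mono_left (interior_mono hsub)).symm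
    · left
      subst h
      exact ⟨b, hq, le_refl _, subset_refl _⟩
    · rcases ih q hqb a h with ⟨e, he, heq, hsube⟩ | hdis
      · left
        exact ⟨e, he, by omega, hsub.trans hsube⟩
      · right
        exact hdis.mono_right (interior_mono hsub)

lemma Tree.mem_T {n : ℕ} {z : ℝ × ℝ} : z ∈ tri (tile c y0 n 0) ↔
    (c n).x ≤ z.1 ∧ z.2 ≤ y0 + (c n).h ∧ y0 + (c n).h - (c n).w + (z.1 - (c n).x) ≤ z.2 := by
  have : tile c y0 n 0 = ((c n).x, y0 + (c n).h, (c n).w) := by simp [tile]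
  rw [this, mem_tri_pos (T.w_pos n)]
  constructor
  · rintro ⟨h1, h2, h3⟩; exact ⟨h1, h2, by linarith⟩
  · rintro ⟨h1, h2, h3⟩; exact ⟨h1, h2, by linarith⟩

lemma Tree.mem_H1 {n : ℕ} (hfr : (c n).fr = true) {z : ℝ × ℝ} : z ∈ tri (tile c y0 n 1) ↔
    z.1 ≤ (c n).x + (c (2*n+1)).w ∧ y0 + (c n).h - (c n).w ≤ z.2 ∧
      z.2 ≤ y0 + (c n).h - (c n).w + (z.1 - (c n).x) := by
  have : tile c y0 n 1 = ((c (2*n+1)).x + (c (2*n+1)).w, y0 + (c (2*n+1)).h,
    -(c (2*n+1)).w) := by simp [tile]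
  rw [this, mem_tri_neg (T.w_pos _)]
  have e1 := (T.child n).x1
  have e2 := (T.child n).frh1 hfr
  rw [e1, e2]
  constructor
  · rintro ⟨h1, h2, h3⟩; exact ⟨h1, by linarith, by linarith⟩
  · rintro ⟨h1, h2, h3⟩; exact ⟨h1, by linarith, by linarith⟩

lemma Tree.mem_H2 {n : ℕ} (hfr : (c n).fr = true) {z : ℝ × ℝ} : z ∈ tri (tile c y0 n 2) ↔
    z.1 ≤ (c n).x + (c n).w ∧ y0 + (c n).h - (c n).w + (c (2*n+1)).w ≤ z.2 ∧
      z.2 ≤ y0 + (c n).h - (c n).w + (z.1 - (c n).x) := by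
  have : tile c y0 n 2 = ((c (2*n+2)).x + (c (2*n+2)).w, y0 + (c (2*n+2)).h,
    -(c (2*n+2)).w) := by simp [tile]
  rw [this, mem_tri_neg (T.w_pos _)]
  have e1 := (T.child n).x2
  have e2 := (T.child n).frh2 hfr
  have e3 := (T.child n).w2
  rw [e1, e2, e3]
  constructor
  · rintro ⟨h1, h2, h3⟩; exact ⟨by linarith, by linarith, by linarith⟩
  · rintro ⟨h1, h2, h3⟩; exact ⟨by linarith, by linarith, by linarith⟩

lemma Tree.tile_sub {n : ℕ} (hfr : (c n).fr = true) (k : Fin 3) :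
    tri (tile c y0 n k) ⊆ reg y0 (c n) := by
  have hv := (T.val n).1 hfr
  have hw := hv.1
  have hwh := hv.2.1
  have hp1 := (T.child n).p1
  have hp2 := (T.child n).p2
  intro z hz
  fin_cases k
  · rw [show ((⟨0, by norm_num⟩ : Fin 3)) = 0 from rfl] at hz
    obtain ⟨h1, h2, h3⟩ := (T.mem_T y0).mp hz
    exact ⟨h1, by linarith, by linarith, h2⟩
  · obtain ⟨h1, h2, h3⟩ := (T.mem_H1 y0 hfr).mp hz
    exact ⟨by linarith, by linarith, by linarith, by linarith⟩
  · obtain ⟨h1, h2, h3⟩ := (T.mem_H2 y0 hfr).mp hz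
    exact ⟨by linarith, by linarith, by linarith, by linarith⟩

/-- a tile of `n` is disjoint from the regions of the children of `n` -/
lemma Tree.tile_child {n : ℕ} (hfr : (c n).fr = true) (k : Fin 3) (e : ℕ)
    (he : e = 2*n+1 ∨ e = 2*n+2) :
    Disjoint (interior (tri (tile c y0 n k))) (interior (reg y0 (c e))) := by
  have hv := (T.val n).1 hfr
  have hw := hv.1
  have hwh := hv.2.1
  have hp1 := (T.child n).p1
  have hp2 := (T.child n).p2
  have e1 := (T.child n).x1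
  have e2 := (T.child n).x2
  have e3 := (T.child n).w2
  have e4 := (T.child n).frh1 hfr
  have e5 := (T.child n).frh2 hfr
  rcases he with rfl | rfl
  · fin_cases k
    · symm
      apply sepY (y0 + (c n).h - (c n).w)
      · rintro z ⟨h1, h2, h3, h4⟩; linarith
      · intro z hz
        obtain ⟨h1, h2, h3⟩ := (T.mem_T y0).mp hz
        linarith
    · symm
      apply sepY (y0 + (c n).h - (c n).w)
      · rintro z ⟨h1, h2, h3, h4⟩; linarith
      · intro z hz
        obtain ⟨h1, h2, h3⟩ := (T.mem_H1 y0 hfr).mp hz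
        linarith
    · symm
      apply sepY (y0 + (c n).h - (c n).w)
      · rintro z ⟨h1, h2, h3, h4⟩; linarith
      · intro z hz
        obtain ⟨h1, h2, h3⟩ := (T.mem_H2 y0 hfr).mp hz
        linarith
  · fin_cases k
    · symm
      apply sepD (y0 + (c n).h - (c n).w - (c n).x)
      · rintro z ⟨h1, h2, h3, h4⟩; linarith
      · intro z hz
        obtain ⟨h1, h2, h3⟩ := (T.mem_T y0).mp hz
        linarith
    · apply sepX ((c n).x + (c (2*n+1)).w)
      · intro z hz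
        obtain ⟨h1, h2, h3⟩ := (T.mem_H1 y0 hfr).mp hz
        linarith
      · rintro z ⟨h1, h2, h3, h4⟩; linarith
    · symm
      apply sepY (y0 + (c n).h - (c n).w + (c (2*n+1)).w)
      · rintro z ⟨h1, h2, h3, h4⟩; linarith
      · intro z hz
        obtain ⟨h1, h2, h3⟩ := (T.mem_H2 y0 hfr).mp hz
        linarith

lemma Tree.tile_same01 {n : ℕ} (hfr : (c n).fr = true) :
    Disjoint (interior (tri (tile c y0 n 0))) (interior (tri (tile c y0 n 1))) := by
  symm
  apply sepD (y0 + (c n).h - (c n).w - (c n).x)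
  · intro z hz
    obtain ⟨h1, h2, h3⟩ := (T.mem_H1 y0 hfr).mp hz
    linarith
  · intro z hz
    obtain ⟨h1, h2, h3⟩ := (T.mem_T y0).mp hz
    linarith

lemma Tree.tile_same02 {n : ℕ} (hfr : (c n).fr = true) :
    Disjoint (interior (tri (tile c y0 n 0))) (interior (tri (tile c y0 n 2))) := by
  symm
  apply sepD (y0 + (c n).h - (c n).w - (c n).x)
  · intro z hz
    obtain ⟨h1, h2, h3⟩ := (T.mem_H2 y0 hfr).mp hz
    linarith
  · intro z hz
    obtain ⟨h1, h2, h3⟩ := (T.mem_T y0).mp hz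
    linarith

lemma Tree.tile_same12 {n : ℕ} (hfr : (c n).fr = true) :
    Disjoint (interior (tri (tile c y0 n 1))) (interior (tri (tile c y0 n 2))) := by
  apply sepX ((c n).x + (c (2*n+1)).w)
  · intro z hz
    obtain ⟨h1, h2, h3⟩ := (T.mem_H1 y0 hfr).mp hz
    linarith
  · intro z hz
    obtain ⟨h1, h2, h3⟩ := (T.mem_H2 y0 hfr).mp hz
    linarith

lemma Tree.tile_same {n : ℕ} (hfr : (c n).fr = true) (k k' : Fin 3) (hk : k ≠ k') :
    Disjoint (interior (tri (tile c y0 n k))) (interior (tri (tile c y0 n k'))) := by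
  fin_cases k <;> fin_cases k' <;> first | exact absurd rfl hk | skip
  · exact T.tile_same01 y0 hfr
  · exact T.tile_same02 y0 hfr
  · exact (T.tile_same01 y0 hfr).symm
  · exact T.tile_same12 y0 hfr
  · exact (T.tile_same02 y0 hfr).symm
  · exact (T.tile_same12 y0 hfr).symm

lemma Tree.tile_lt {n n' : ℕ} (hlt : n < n') (hfr : (c n).fr = true) (hfr' : (c n').fr = true)
    (k k' : Fin 3) :
    Disjoint (interior (tri (tile c y0 n k))) (interior (tri (tile c y0 n' k'))) := by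
  rcases T.rel y0 n' n hlt with ⟨e, he, _, hsub⟩ | hdis
  · exact (T.tile_child y0 hfr k e he).mono_right
      (interior_mono ((T.tile_sub y0 hfr' k').trans hsub))
  · exact (hdis.mono_left (interior_mono (T.tile_sub y0 hfr k))).mono_right
      (interior_mono (T.tile_sub y0 hfr' k'))

lemma Tree.tile_disj {n n' : ℕ} (hfr : (c n).fr = true) (hfr' : (c n').fr = true)
    (k k' : Fin 3) (hne : n ≠ n' ∨ k ≠ k') :
    Disjoint (interior (tri (tile c y0 n k))) (interior (tri (tile c y0 n' k'))) := by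
  rcases lt_trichotomy n n' with h | h | h
  · exact T.tile_lt y0 h hfr hfr' k k'
  · subst h
    rcases hne with hne | hne
    · exact absurd rfl hne
    · exact T.tile_same y0 hfr k k' hne
  · exact (T.tile_lt y0 h hfr' hfr k' k).symm

lemma Tree.tile_size (n : ℕ) (k : Fin 3) :
    |(tile c y0 n k).2.2| = (c (node n k)).w ∧ (tile c y0 n k).2.2 ≠ 0 := by
  fin_cases k
  · simp only [tile, node]
    have := T.w_pos n
    simp [abs_of_pos this, this.ne']
  · simp only [tile, node]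
    have := T.w_pos (2*n+1)
    simp [abs_of_pos this, this.ne']
  · simp only [tile, node]
    have := T.w_pos (2*n+2)
    simp [abs_of_pos this, this.ne']

lemma Tree.node_ne {n n' : ℕ} (hfr : (c n).fr = true) (hfr' : (c n').fr = true)
    (k k' : Fin 3) (hne : n ≠ n' ∨ k ≠ k') : node n k ≠ node n' k' := by
  have a1 := (T.child n).frfr1 hfr
  have a2 := (T.child n).frfr2 hfr
  have b1 := (T.child n').frfr1 hfr'
  have b2 := (T.child n').frfr2 hfr'
  intro heq
  fin_cases k <;> fin_cases k' <;> simp [node] at heq hne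
  all_goals first
    | exact hne heq
    | omega
    | (rw [heq] at hfr; rw [hfr] at b1; exact absurd b1 (by decide))
    | (rw [heq] at hfr; rw [hfr] at b2; exact absurd b2 (by decide))
    | (rw [← heq] at hfr'; rw [hfr'] at a1; exact absurd a1 (by decide))
    | (rw [← heq] at hfr'; rw [hfr'] at a2; exact absurd a2 (by decide))

lemma Tree.cover_fr {d : ℝ}
    (ih : ∀ n, ∀ z ∈ reg y0 (c n), y0 < z.2 → (c n).h < d * (z.2 - y0) →
      ∃ n' k, (c n').fr = true ∧ z ∈ tri (tile c y0 n' k))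
    (n : ℕ) (hfr : (c n).fr = true) (z : ℝ × ℝ) (hz : z ∈ reg y0 (c n)) (hz0 : y0 < z.2)
    (hd : (c n).h < 2 * d * (z.2 - y0)) : ∃ n' k, (c n').fr = true ∧ z ∈ tri (tile c y0 n' k) := by
  obtain ⟨h1, h2, h3, h4⟩ := hz
  have hv := (T.val n).1 hfr
  have hw := hv.1
  have hwh := hv.2.1
  have hp1 := (T.child n).p1
  have hp2 := (T.child n).p2
  have e1 := (T.child n).x1
  have e2 := (T.child n).x2
  have e3 := (T.child n).w2
  have e4 := (T.child n).frh1 hfr
  have e5 := (T.child n).frh2 hfr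
  rcases le_total (y0 + (c n).h - (c n).w + (z.1 - (c n).x)) z.2 with g | g
  · exact ⟨n, 0, hfr, (T.mem_T y0).mpr ⟨h1, h4, g⟩⟩
  · rcases le_total z.1 ((c n).x + (c (2*n+1)).w) with g1 | g1
    · rcases le_total (y0 + (c n).h - (c n).w) z.2 with g2 | g2
      · exact ⟨n, 1, hfr, (T.mem_H1 y0 hfr).mpr ⟨g1, g2, g⟩⟩
      · apply ih (2*n+1) z ⟨by linarith, by linarith, h3, by linarith⟩ hz0
        obtain ⟨q1, q2, q3, q4, q5⟩ := hv
        have hm : (2:ℝ) ≤ (c n).m := by exact_mod_cast q3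
        have : (c (2*n+1)).h < (c n).h / 2 := by
          rw [e4]
          nlinarith
        linarith
    · rcases le_total (y0 + (c n).h - (c n).w + (c (2*n+1)).w) z.2 with g2 | g2
      · exact ⟨n, 2, hfr, (T.mem_H2 y0 hfr).mpr ⟨h2, g2, g⟩⟩
      · apply ih (2*n+2) z ⟨by linarith, by linarith, h3, by linarith⟩ hz0
        have hv2 := (T.val (2*n+2)).2 ((T.child n).frfr2 hfr)
        obtain ⟨q1, q2, q3, q4⟩ := hv2
        have hm : (2:ℝ) ≤ (c (2*n+2)).m := by exact_mod_cast q2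
        have : (c (2*n+2)).h < (c n).h / 2 := by
          have : (c (2*n+2)).h + (c (2*n+2)).w = (c n).h := by rw [e5, e3]; ring
          nlinarith
        linarith

lemma Tree.cover (N : ℕ) : ∀ n, ∀ z ∈ reg y0 (c n), y0 < z.2 → (c n).h < 2^N * (z.2 - y0) →
      ∃ n' k, (c n').fr = true ∧ z ∈ tri (tile c y0 n' k) := by
  induction N with
  | zero =>
    rintro n z ⟨h1, h2, h3, h4⟩ hz0 hlt
    exfalso
    simp only [pow_zero, one_mul] at hlt
    linarith
  | succ N ih =>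
    have hfrcase : ∀ n, (c n).fr = true → ∀ z ∈ reg y0 (c n), y0 < z.2 →
        (c n).h < 2^(N+1) * (z.2 - y0) →
        ∃ n' k, (c n').fr = true ∧ z ∈ tri (tile c y0 n' k) := by
      intro n hfr z hz hz0 hlt
      apply T.cover_fr y0 ih n hfr z hz hz0
      rw [pow_succ] at hlt
      linarith
    have hnf : ∀ M : ℕ, ∀ n, (c n).m < M → ∀ z ∈ reg y0 (c n), y0 < z.2 →
        (c n).h < 2^(N+1) * (z.2 - y0) →
        ∃ n' k, (c n').fr = true ∧ z ∈ tri (tile c y0 n' k) := by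
      intro M
      induction M with
      | zero => intro n hn; omega
      | succ M ihM =>
        intro n hn z hz hz0 hlt
        rcases hfr : (c n).fr with _ | _
        · obtain ⟨h1, h2, h3, h4⟩ := hz
          have e1 := (T.child n).x1
          have e2 := (T.child n).x2
          have e3 := (T.child n).w2
          have e4 := (T.child n).nfh1 hfr
          have e5 := (T.child n).nfh2 hfr
          rcases le_total z.1 ((c n).x + (c (2*n+1)).w) with g1 | g1
          · exact hfrcase (2*n+1) ((T.child n).nffr1 hfr) z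
              ⟨by linarith, by linarith, h3, by linarith⟩ hz0 (by rw [e4]; exact hlt)
          · rcases (T.child n).nfm hfr with g2 | g2
            · exact hfrcase (2*n+2) g2 z
                ⟨by linarith, by linarith, h3, by linarith⟩ hz0 (by rw [e5]; exact hlt)
            · exact ihM (2*n+2) (by omega) z
                ⟨by linarith, by linarith, h3, by linarith⟩ hz0 (by rw [e5]; exact hlt)
        · exact hfrcase n hfr z hz hz0 hlt
    intro n z hz hz0 hlt
    exact hnf ((c n).m + 1) n (by omega) z hz hz0 hlt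

end

theorem cell_tiling (x y0 w h : ℝ) (H : VNf w h 2) {S : Set ℝ} (hS : S.Countable) :
    ∃ 𝒯 : Set (ℝ × ℝ × ℝ), 𝒯.Countable ∧
      (∀ t ∈ 𝒯, t.2.2 ≠ 0 ∧ |t.2.2| ∉ S ∧
        tri t ⊆ {z | x ≤ z.1 ∧ z.1 ≤ x + w ∧ y0 ≤ z.2 ∧ z.2 ≤ y0 + h}) ∧
      (∀ z : ℝ × ℝ, x ≤ z.1 → z.1 ≤ x + w → y0 < z.2 → z.2 ≤ y0 + h → ∃ t ∈ 𝒯, z ∈ tri t) ∧
      (∀ t ∈ 𝒯, ∀ t' ∈ 𝒯, t ≠ t' → |t.2.2| ≠ |t'.2.2| ∧
        Disjoint (interior (tri t)) (interior (tri t'))) := by
  obtain ⟨c, T⟩ := exists_tree ⟨x, w, h, false, 2⟩ ⟨by simp, fun _ => H⟩ hS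
  have hroot := T.root
  have hregsub : ∀ n, reg y0 (c n) ⊆ reg y0 (c 0) := by
    intro n
    induction n using Nat.strong_induction_on with
    | _ n ih =>
      rcases Nat.eq_zero_or_pos n with rfl | hn
      · exact subset_refl _
      · obtain ⟨q, hq⟩ : ∃ q, n = 2*q+1 ∨ n = 2*q+2 := by
          rcases Nat.even_or_odd n with ⟨k, hk⟩ | ⟨k, hk⟩
          · exact ⟨k-1, by omega⟩
          · exact ⟨k, by omega⟩
        rcases hq with rfl | rfl
        · exact (T.reg1 y0 q).trans (ih q (by omega))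
        · exact (T.reg2 y0 q).trans (ih q (by omega))
  refine ⟨{t | ∃ n k, (c n).fr = true ∧ t = tile c y0 n k}, ?_, ?_, ?_, ?_⟩
  · have : {t | ∃ n k, (c n).fr = true ∧ t = tile c y0 n k} ⊆
        Set.range (fun p : ℕ × Fin 3 => tile c y0 p.1 p.2) := by
      rintro t ⟨n, k, _, rfl⟩
      exact ⟨(n, k), rfl⟩
    exact (Set.countable_range _).mono this
  · rintro t ⟨n, k, hfr, rfl⟩
    have hsz := T.tile_size y0 n k
    refine ⟨hsz.2, ?_, ?_⟩
    · rw [hsz.1]
      apply T.avoid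
      -- node is not the root
      rw [node]
      split_ifs
      · rcases Nat.eq_zero_or_pos n with rfl | hn
        · rw [hroot] at hfr
          simp at hfr
        · exact hn
      · omega
      · omega
    · intro z hz
      have := hregsub n (T.tile_sub y0 hfr k hz)
      rw [hroot] at this
      exact this
  · intro z h1 h2 h3 h4
    have hz : z ∈ reg y0 (c 0) := by
      rw [hroot]
      exact ⟨h1, h2, h3.le, h4⟩
    obtain ⟨N, hN⟩ : ∃ N : ℕ, (c 0).h < 2^N * (z.2 - y0) := by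
      obtain ⟨N, hN⟩ := pow_unbounded_of_one_lt ((c 0).h / (z.2 - y0)) (one_lt_two)
      refine ⟨N, ?_⟩
      rwa [div_lt_iff₀ (by linarith)] at hN
    obtain ⟨n', k, hfr, hm⟩ := T.cover y0 N 0 z hz h3 hN
    exact ⟨_, ⟨n', k, hfr, rfl⟩, hm⟩
  · rintro t ⟨n, k, hfr, rfl⟩ t' ⟨n', k', hfr', rfl⟩ hne
    have hne' : n ≠ n' ∨ k ≠ k' := by
      by_contra hcon
      push Not at hcon
      obtain ⟨rfl, rfl⟩ := hcon
      exact hne rfl
    refine ⟨?_, T.tile_disj y0 hfr hfr' k k' hne'⟩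
    rw [(T.tile_size y0 n k).1, (T.tile_size y0 n' k').1]
    exact T.inj _ _ (T.node_ne hfr hfr' k k' hne')

end Pool.Agent.H342R2.EqTri
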