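import Pool.Agent.H342R2.EqTri3

/-!
# Tiling a triangle and the plane (skew coordinates)
-/

set_option autoImplicit false

namespace Pool.Agent.H342R2.EqTri

/-- every triangle can be tiled by infinitely many triangles of distinct sizes -/
theorem block {S : Set ℝ} (hS : S.Countable) :
    ∃ 𝒯 : Set (ℝ × ℝ × ℝ), 𝒯.Countable ∧ 𝒯.Nonempty ∧
      (∀ t ∈ 𝒯, t.2.2 ≠ 0 ∧ |t.2.2| ∉ S ∧ tri t ⊆ tri (0, 1, 1)) ∧
      (∀ z ∈ tri (0, 1, 1), ∃ t ∈ 𝒯, z ∈ tri t) ∧
      (∀ t ∈ 𝒯, ∀ t' ∈ 𝒯, t ≠ t' → |t.2.2| ≠ |t'.2.2| ∧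
        Disjoint (interior (tri t)) (interior (tri t'))) := by
  obtain ⟨q, ⟨hq1, hq2⟩, hqS, hqS', hqne⟩ :=
    exists_generic (show (7/11:ℝ) < 2/3 by norm_num) 1 hS
  have hq0 : 0 < q := by linarith
  have hp0 : 0 < 1 - q := by linarith
  have hS' : (S ∪ {q, 1 - q}).Countable :=
    hS.union ((Set.countable_singleton (1-q)).insert q)
  have hV : VNf q (1-q) 2 := ⟨hp0, le_refl _, by push_cast; linarith, by push_cast; linarith⟩
  obtain ⟨𝒯, hc, h1, h2, h3⟩ := cell_tiling 0 q q (1-q) hV hS'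
  have hA : ∀ z, z ∈ tri (0, q, q) ↔ 0 ≤ z.1 ∧ z.2 ≤ q ∧ (z.1 - 0) + (q - z.2) ≤ q :=
    fun z => mem_tri_pos hq0
  have hB : ∀ z, z ∈ tri (q, 1, 1-q) ↔ q ≤ z.1 ∧ z.2 ≤ 1 ∧ (z.1 - q) + (1 - z.2) ≤ 1 - q :=
    fun z => mem_tri_pos hp0
  have hU : ∀ z, z ∈ tri (0, 1, 1) ↔ 0 ≤ z.1 ∧ z.2 ≤ 1 ∧ (z.1 - 0) + (1 - z.2) ≤ 1 :=
    fun z => mem_tri_pos one_pos
  -- disjointness of the big tiles from the cell tiles
  have dA : ∀ t ∈ 𝒯, Disjoint (interior (tri (0, q, q))) (interior (tri t)) := by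
    intro t ht
    apply sepY q
    · intro z hz; exact ((hA z).mp hz).2.1
    · intro z hz; exact ((h1 t ht).2.2 hz).2.2.1
  have dB : ∀ t ∈ 𝒯, Disjoint (interior (tri (q, 1, 1-q))) (interior (tri t)) := by
    intro t ht
    symm
    apply sepX q
    · intro z hz
      have := ((h1 t ht).2.2 hz).2.1
      linarith
    · intro z hz; exact ((hB z).mp hz).1
  have dAB : Disjoint (interior (tri (0, q, q))) (interior (tri (q, 1, 1-q))) := by
    apply sepX q
    · intro z hz
      have := (hA z).mp hz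
      linarith
    · intro z hz; exact ((hB z).mp hz).1
  have sA : |q| = q := abs_of_pos hq0
  have sB : |1 - q| = 1 - q := abs_of_pos hp0
  have nA : ∀ t ∈ 𝒯, q ≠ |t.2.2| := by
    intro t ht h
    exact (h1 t ht).2.1 (Or.inr (by rw [← h]; simp))
  have nB : ∀ t ∈ 𝒯, 1 - q ≠ |t.2.2| := by
    intro t ht h
    exact (h1 t ht).2.1 (Or.inr (by rw [← h]; simp))
  refine ⟨𝒯 ∪ {(0, q, q), (q, 1, 1-q)}, ?_, ?_, ?_, ?_, ?_⟩
  · exact hc.union ((Set.countable_singleton _).insert _)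
  · exact ⟨(0, q, q), Or.inr (by simp)⟩
  · rintro t (ht | ht)
    · refine ⟨(h1 t ht).1, fun h => (h1 t ht).2.1 (Or.inl h), ?_⟩
      intro z hz
      obtain ⟨e1, e2, e3, e4⟩ := (h1 t ht).2.2 hz
      rw [hU]
      exact ⟨e1, by linarith, by linarith⟩
    · simp only [Set.mem_insert_iff, Set.mem_singleton_iff] at ht
      rcases ht with rfl | rfl
      · refine ⟨hq0.ne', by simpa [sA] using hqS, ?_⟩
        intro z hz
        rw [hA] at hz
        rw [hU]
        exact ⟨hz.1, by linarith, by linarith⟩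
      · refine ⟨hp0.ne', by simpa [sB] using hqS', ?_⟩
        intro z hz
        rw [hB] at hz
        rw [hU]
        exact ⟨by linarith, by linarith, by linarith⟩
  · intro z hz
    rw [hU] at hz
    obtain ⟨e1, e2, e3⟩ := hz
    rcases le_or_gt z.2 q with g | g
    · exact ⟨(0, q, q), Or.inr (by simp), (hA z).mpr ⟨e1, g, by linarith⟩⟩
    · rcases le_or_gt z.1 q with g1 | g1
      · obtain ⟨t, ht, hm⟩ := h2 z e1 (by linarith) g (by linarith)
        exact ⟨t, Or.inl ht, hm⟩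
      · exact ⟨(q, 1, 1-q), Or.inr (by simp), (hB z).mpr ⟨g1.le, e2, by linarith⟩⟩
  · rintro t (ht | ht) t' (ht' | ht') hne
    · exact h3 t ht t' ht' hne
    · simp only [Set.mem_insert_iff, Set.mem_singleton_iff] at ht'
      rcases ht' with rfl | rfl
      · exact ⟨by rw [sA]; exact (nA t ht).symm, (dA t ht).symm⟩
      · exact ⟨by rw [sB]; exact (nB t ht).symm, (dB t ht).symm⟩
    · simp only [Set.mem_insert_iff, Set.mem_singleton_iff] at ht
      rcases ht with rfl | rfl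
      · exact ⟨by rw [sA]; exact nA t' ht', dA t' ht'⟩
      · exact ⟨by rw [sB]; exact nB t' ht', dB t' ht'⟩
    · simp only [Set.mem_insert_iff, Set.mem_singleton_iff] at ht ht'
      rcases ht with rfl | rfl <;> rcases ht' with rfl | rfl
      · exact absurd rfl hne
      · exact ⟨by rw [sA, sB]; exact hqne, dAB⟩
      · exact ⟨by rw [sA, sB]; exact hqne.symm, dAB.symm⟩
      · exact absurd rfl hne

/-- placement of the unit triangle: `σ = true` is the upper left half of the square `(i,j)`,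
`σ = false` the lower right half -/
def bx (b : ℤ × ℤ × Bool) : ℝ × ℝ :=
  if b.2.2 then ((b.1 : ℝ), (b.2.1 : ℝ)) else ((b.1 : ℝ) + 1, (b.2.1 : ℝ) + 1)

def bs (b : ℤ × ℤ × Bool) : ℝ := if b.2.2 then 1 else -1

def place (b : ℤ × ℤ × Bool) (t : ℝ × ℝ × ℝ) : ℝ × ℝ × ℝ :=
  ((bx b).1 + bs b * t.1, (bx b).2 + bs b * t.2.1, bs b * t.2.2)

def unplace (b : ℤ × ℤ × Bool) (z : ℝ × ℝ) : ℝ × ℝ :=
  (bs b * (z.1 - (bx b).1), bs b * (z.2 - (bx b).2))

lemma bs_sq (b : ℤ × ℤ × Bool) : bs b * bs b = 1 := by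
  unfold bs; split_ifs <;> norm_num

lemma abs_bs (b : ℤ × ℤ × Bool) : |bs b| = 1 := by
  unfold bs; split_ifs <;> norm_num

lemma mem_place (b : ℤ × ℤ × Bool) (t : ℝ × ℝ × ℝ) (z : ℝ × ℝ) :
    z ∈ tri (place b t) ↔ unplace b z ∈ tri t := by
  have h := bs_sq b
  simp only [tri, place, unplace, Set.mem_ofPred_eq]
  have e1 : bs b * t.2.2 * (z.1 - ((bx b).1 + bs b * t.1)) =
      t.2.2 * (bs b * (z.1 - (bx b).1) - t.1) := by
    linear_combination (-(t.2.2 * t.1)) * h
  have e2 : bs b * t.2.2 * ((bx b).2 + bs b * t.2.1 - z.2) =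
      t.2.2 * (t.2.1 - bs b * (z.2 - (bx b).2)) := by
    linear_combination (t.2.2 * t.2.1) * h
  have e3 : bs b * t.2.2 * ((z.1 - ((bx b).1 + bs b * t.1)) + ((bx b).2 + bs b * t.2.1 - z.2)) =
      t.2.2 * ((bs b * (z.1 - (bx b).1) - t.1) + (t.2.1 - bs b * (z.2 - (bx b).2))) := by
    rw [mul_add, mul_add, e1, e2]
  have e4 : bs b * t.2.2 * (bs b * t.2.2) = t.2.2 * t.2.2 := by
    linear_combination (t.2.2 * t.2.2) * h
  rw [e1, e2, e3, e4]

lemma size_place (b : ℤ × ℤ × Bool) (t : ℝ × ℝ × ℝ) : |(place b t).2.2| = |t.2.2| := by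
  simp only [place, abs_mul, abs_bs, one_mul]

lemma mem_unit_true {i j : ℤ} {z : ℝ × ℝ} :
    z ∈ tri (place (i, j, true) (0, 1, 1)) ↔
      (i:ℝ) ≤ z.1 ∧ z.2 ≤ j + 1 ∧ (j:ℝ) - i ≤ z.2 - z.1 := by
  rw [mem_place, mem_tri_pos one_pos]
  simp only [unplace, bs, bx, if_true]
  constructor
  · rintro ⟨h1, h2, h3⟩; exact ⟨by linarith, by linarith, by linarith⟩
  · rintro ⟨h1, h2, h3⟩; exact ⟨by linarith, by linarith, by linarith⟩

lemma mem_unit_false {i j : ℤ} {z : ℝ × ℝ} :
    z ∈ tri (place (i, j, false) (0, 1, 1)) ↔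
      z.1 ≤ i + 1 ∧ (j:ℝ) ≤ z.2 ∧ z.2 - z.1 ≤ (j:ℝ) - i := by
  rw [mem_place, mem_tri_pos one_pos]
  simp only [unplace, bs, bx, if_false, Bool.false_eq_true]
  constructor
  · rintro ⟨h1, h2, h3⟩; exact ⟨by linarith, by linarith, by linarith⟩
  · rintro ⟨h1, h2, h3⟩; exact ⟨by linarith, by linarith, by linarith⟩

lemma unit_box (b : ℤ × ℤ × Bool) {z : ℝ × ℝ} (hz : z ∈ tri (place b (0, 1, 1))) :
    (b.1 : ℝ) ≤ z.1 ∧ z.1 ≤ b.1 + 1 ∧ (b.2.1 : ℝ) ≤ z.2 ∧ z.2 ≤ b.2.1 + 1 := by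
  obtain ⟨i, j, σ⟩ := b
  cases σ with
  | true =>
    rw [mem_unit_true] at hz
    obtain ⟨h1, h2, h3⟩ := hz
    exact ⟨h1, by linarith, by linarith, h2⟩
  | false =>
    rw [mem_unit_false] at hz
    obtain ⟨h1, h2, h3⟩ := hz
    exact ⟨by linarith, h1, h2, by linarith⟩

lemma unit_disj (b b' : ℤ × ℤ × Bool) (hne : b ≠ b') :
    Disjoint (interior (tri (place b (0, 1, 1)))) (interior (tri (place b' (0, 1, 1)))) := by
  have hX : ∀ b b' : ℤ × ℤ × Bool, b.1 < b'.1 →
      Disjoint (interior (tri (place b (0, 1, 1)))) (interior (tri (place b' (0, 1, 1)))) := by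
    intro b b' h
    apply sepX (b'.1 : ℝ)
    · intro z hz
      have h1 := (unit_box b hz).2.1
      have h2 : (b.1 : ℝ) + 1 ≤ b'.1 := by exact_mod_cast h
      linarith
    · intro z hz; exact (unit_box b' hz).1
  have hY : ∀ b b' : ℤ × ℤ × Bool, b.2.1 < b'.2.1 →
      Disjoint (interior (tri (place b (0, 1, 1)))) (interior (tri (place b' (0, 1, 1)))) := by
    intro b b' h
    apply sepY (b'.2.1 : ℝ)
    · intro z hz
      have h1 := (unit_box b hz).2.2.2
      have h2 : (b.2.1 : ℝ) + 1 ≤ b'.2.1 := by exact_mod_cast h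
      linarith
    · intro z hz; exact (unit_box b' hz).2.2.1
  have hD : ∀ i j : ℤ, Disjoint (interior (tri (place (i, j, false) (0, 1, 1))))
      (interior (tri (place (i, j, true) (0, 1, 1)))) := by
    intro i j
    apply sepD ((j:ℝ) - i)
    · intro z hz; exact (mem_unit_false.mp hz).2.2
    · intro z hz; exact (mem_unit_true.mp hz).2.2
  rcases lt_trichotomy b.1 b'.1 with h | h | h
  · exact hX b b' h
  · rcases lt_trichotomy b.2.1 b'.2.1 with g | g | g
    · exact hY b b' g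
    · obtain ⟨i, j, σ⟩ := b
      obtain ⟨i', j', σ'⟩ := b'
      simp only at h g
      subst h; subst g
      cases σ <;> cases σ'
      · exact absurd rfl hne
      · exact hD i j
      · exact (hD i j).symm
      · exact absurd rfl hne
    · exact (hY b' b g).symm
  · exact (hX b' b h).symm

lemma unit_cover (z : ℝ × ℝ) : ∃ b : ℤ × ℤ × Bool, z ∈ tri (place b (0, 1, 1)) := by
  have h1 := Int.floor_le z.1
  have h2 := (Int.lt_floor_add_one z.1).le
  have h3 := Int.floor_le z.2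
  have h4 := (Int.lt_floor_add_one z.2).le
  rcases le_total ((⌊z.2⌋ : ℝ) - ⌊z.1⌋) (z.2 - z.1) with h | h
  · exact ⟨(⌊z.1⌋, ⌊z.2⌋, true), mem_unit_true.mpr ⟨h1, h4, h⟩⟩
  · exact ⟨(⌊z.1⌋, ⌊z.2⌋, false), mem_unit_false.mpr ⟨h2, h3, h⟩⟩

/-- a perfect tiling of the plane, as a sequence -/
theorem plane : ∃ t : ℕ → ℝ × ℝ × ℝ, (∀ n, (t n).2.2 ≠ 0) ∧
    (∀ m n, m ≠ n → |(t m).2.2| ≠ |(t n).2.2|) ∧
    (∀ z, ∃ n, z ∈ tri (t n)) ∧
    (∀ m n, m ≠ n → Disjoint (interior (tri (t m))) (interior (tri (t n)))) := by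
  classical
  choose G G1 G2 G3 G4 G5 using fun S : {S : Set ℝ // S.Countable} => block S.2
  let Sq : ℕ → {S : Set ℝ // S.Countable} := fun n => Nat.rec ⟨∅, Set.countable_empty⟩
    (fun _ S => ⟨S.1 ∪ (fun t => |t.2.2|) '' (G S), S.2.union ((G1 S).image _)⟩) n
  have hSq : ∀ n, (Sq (n+1)).1 = (Sq n).1 ∪ (fun t => |t.2.2|) '' (G (Sq n)) := fun n => rfl
  have hmono : ∀ m n, m ≤ n → (Sq m).1 ⊆ (Sq n).1 := by
    intro m n hmn
    induction n, hmn using Nat.le_induction with
    | base => exact subset_refl _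
    | succ n hn ih => rw [hSq]; exact ih.trans Set.subset_union_left
  have hsz : ∀ m n, m < n → ∀ t ∈ G (Sq m), ∀ t' ∈ G (Sq n), |t.2.2| ≠ |t'.2.2| := by
    intro m n hmn t ht t' ht' heq
    apply (G3 (Sq n) t' ht').2.1
    apply hmono (m+1) n hmn
    rw [hSq]
    right
    exact ⟨t, ht, heq⟩
  obtain ⟨e⟩ : Nonempty (ℕ ≃ ℤ × ℤ × Bool) := nonempty_equiv_of_countable
  let I := {p : ℕ × (ℝ × ℝ × ℝ) // p.2 ∈ G (Sq p.1)}
  have hcount : ({p : ℕ × (ℝ × ℝ × ℝ) | p.2 ∈ G (Sq p.1)}).Countable := by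
    have : {p : ℕ × (ℝ × ℝ × ℝ) | p.2 ∈ G (Sq p.1)} =
        ⋃ n : ℕ, (fun t => (n, t)) '' (G (Sq n)) := by
      ext p
      simp only [Set.mem_ofPred_eq, Set.mem_iUnion, Set.mem_image]
      constructor
      · intro h; exact ⟨p.1, p.2, h, rfl⟩
      · rintro ⟨n, t, h, rfl⟩; exact h
    rw [this]
    exact Set.countable_iUnion fun n => (G1 _).image _
  have : Countable I := hcount.to_subtype
  have : Infinite I := by
    have hf : Function.Injective (fun n : ℕ => (⟨(n, (G2 (Sq n)).some), (G2 (Sq n)).some_mem⟩ : I)) := by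
      intro m n hmn
      simp only [Subtype.mk.injEq, Prod.mk.injEq] at hmn
      exact hmn.1
    exact Infinite.of_injective _ hf
  obtain ⟨g⟩ : Nonempty (ℕ ≃ I) := nonempty_equiv_of_countable
  have hsz' : ∀ m n, m ≠ n → ∀ t ∈ G (Sq m), ∀ t' ∈ G (Sq n), |t.2.2| ≠ |t'.2.2| := by
    intro m n hmn t ht t' ht'
    rcases lt_or_gt_of_ne hmn with h | h
    · exact hsz m n h t ht t' ht'
    · exact (hsz n m h t' ht' t ht).symm
  have hsub : ∀ n, ∀ t ∈ G (Sq n), tri (place (e n) t) ⊆ tri (place (e n) (0, 1, 1)) := by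
    intro n t ht z hz
    rw [mem_place] at hz ⊢
    exact (G3 (Sq n) t ht).2.2 hz
  refine ⟨fun n => place (e (g n).1.1) (g n).1.2, ?_, ?_, ?_, ?_⟩
  · intro n h
    apply (G3 _ _ (g n).2).1
    rw [← abs_eq_zero, ← size_place (e (g n).1.1), h, abs_zero]
  · intro m n hmn
    rw [size_place, size_place]
    have hg : g m ≠ g n := fun h => hmn (g.injective h)
    by_cases hfst : (g m).1.1 = (g n).1.1
    · have hsnd : (g m).1.2 ≠ (g n).1.2 := by
        intro h
        apply hg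
        apply Subtype.ext
        exact Prod.ext hfst h
      have hm := (g m).2
      have hn := (g n).2
      rw [hfst] at hm
      exact (G5 _ _ hm _ hn hsnd).1
    · exact hsz' _ _ hfst _ (g m).2 _ (g n).2
  · intro z
    obtain ⟨b, hb⟩ := unit_cover z
    obtain ⟨n, rfl⟩ := e.surjective b
    rw [mem_place] at hb
    obtain ⟨t, ht, hz⟩ := G4 (Sq n) _ hb
    obtain ⟨k, hk⟩ := g.surjective ⟨(n, t), ht⟩
    refine ⟨k, ?_⟩
    show z ∈ tri (place (e (g k).1.1) (g k).1.2)
    rw [hk]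
    show z ∈ tri (place (e n) t)
    rw [mem_place]
    exact hz
  · intro m n hmn
    have hg : g m ≠ g n := fun h => hmn (g.injective h)
    by_cases hfst : (g m).1.1 = (g n).1.1
    · have hsnd : (g m).1.2 ≠ (g n).1.2 := by
        intro h
        apply hg
        apply Subtype.ext
        exact Prod.ext hfst h
      have hm := (g m).2
      have hn := (g n).2
      rw [hfst] at hm
      have hd := (G5 _ _ hm _ hn hsnd).2
      show Disjoint (interior (tri (place (e (g m).1.1) (g m).1.2)))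
        (interior (tri (place (e (g n).1.1) (g n).1.2)))
      rw [hfst]
      -- transport by the homeomorphism `unplace`
      have hcont : ∀ b : ℤ × ℤ × Bool, Continuous (unplace b) := by
        intro b; unfold unplace; fun_prop
      have hplace : ∀ b t, interior (tri (place b t)) ⊆ unplace b ⁻¹' interior (tri t) := by
        intro b t
        have hpre : tri (place b t) = unplace b ⁻¹' tri t := by
          ext z; exact mem_place b t z
        have hopen : IsOpenMap (unplace b) := by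
          have hb := bs_sq b
          let inv : ℝ × ℝ → ℝ × ℝ := fun z => (bs b * z.1 + (bx b).1, bs b * z.2 + (bx b).2)
          have hinv : Continuous inv := by fun_prop
          refine IsOpenMap.of_inverse (f' := inv) hinv ?_ ?_
          · intro z
            simp only [inv, unplace]
            refine Prod.ext ?_ ?_
            · simp only
              linear_combination z.1 * hb
            · simp only
              linear_combination z.2 * hb
          · intro z
            simp only [inv, unplace]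
            refine Prod.ext ?_ ?_
            · simp only
              linear_combination (z.1 - (bx b).1) * hb
            · simp only
              linear_combination (z.2 - (bx b).2) * hb
        rw [hpre, ← hopen.preimage_interior_eq_interior_preimage (hcont b)]
      exact (Disjoint.preimage _ hd).mono (hplace _ _) (hplace _ _)
    · have hne : e (g m).1.1 ≠ e (g n).1.1 := fun h => hfst (e.injective h)
      exact (unit_disj _ _ hne).mono (interior_mono (hsub _ _ (g m).2))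
        (interior_mono (hsub _ _ (g n).2))

end Pool.Agent.H342R2.EqTri
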