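import Pool.Agent.H342R2.EqTri4

/-!
# From skew coordinates to the Euclidean plane
-/

set_option autoImplicit false

namespace Pool.Agent.H342R2.EqTri

lemma tri_convex (t : ℝ × ℝ × ℝ) : Convex ℝ (tri t) := by
  rintro z ⟨h1, h2, h3⟩ z' ⟨h1', h2', h3'⟩ a b ha hb hab
  have hb' : b = 1 - a := by linarith
  refine ⟨?_, ?_, ?_⟩
  · have : t.2.2 * ((a • z + b • z').1 - t.1) =
        a * (t.2.2 * (z.1 - t.1)) + b * (t.2.2 * (z'.1 - t.1)) := by
      simp only [Prod.fst_add, Prod.smul_fst, smul_eq_mul]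
      rw [hb']; ring
    rw [this]; positivity
  · have : t.2.2 * (t.2.1 - (a • z + b • z').2) =
        a * (t.2.2 * (t.2.1 - z.2)) + b * (t.2.2 * (t.2.1 - z'.2)) := by
      simp only [Prod.snd_add, Prod.smul_snd, smul_eq_mul]
      rw [hb']; ring
    rw [this]; positivity
  · have : t.2.2 * (((a • z + b • z').1 - t.1) + (t.2.1 - (a • z + b • z').2)) =
        a * (t.2.2 * ((z.1 - t.1) + (t.2.1 - z.2))) +
          b * (t.2.2 * ((z'.1 - t.1) + (t.2.1 - z'.2))) := by
      simp only [Prod.fst_add, Prod.smul_fst, Prod.snd_add, Prod.smul_snd, smul_eq_mul]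
      rw [hb']; ring
    rw [this]
    calc _ ≤ a * (t.2.2 * t.2.2) + b * (t.2.2 * t.2.2) := by gcongr
      _ = t.2.2 * t.2.2 := by rw [hb']; ring

lemma hull_eq_tri (x y s : ℝ) (hs : s ≠ 0) :
    convexHull ℝ ({(x, y), (x + s, y), (x, y - s)} : Set (ℝ × ℝ)) = tri (x, y, s) := by
  have hss : 0 < s * s := mul_self_pos.mpr hs
  apply Set.Subset.antisymm
  · apply convexHull_min _ (tri_convex _)
    rintro z (rfl | rfl | rfl)
    · refine ⟨?_, ?_, ?_⟩ <;> simp [hss.le]
    · refine ⟨?_, ?_, ?_⟩ <;> simp [hss.le]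
    · refine ⟨?_, ?_, ?_⟩ <;> simp [hss.le]
  · rintro z ⟨h1, h2, h3⟩
    simp only at h1 h2 h3
    set w1 : ℝ := (z.1 - x) / s with hw1
    set w2 : ℝ := (y - z.2) / s with hw2
    have e1 : w1 * s = z.1 - x := by rw [hw1]; field_simp
    have e2 : w2 * s = y - z.2 := by rw [hw2]; field_simp
    have p1 : 0 ≤ w1 := by
      have : w1 = (s * (z.1 - x)) / (s * s) := by rw [hw1]; field_simp
      rw [this]; positivity
    have p2 : 0 ≤ w2 := by
      have : w2 = (s * (y - z.2)) / (s * s) := by rw [hw2]; field_simp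
      rw [this]; positivity
    have p3 : w1 + w2 ≤ 1 := by
      have : w1 + w2 = (s * ((z.1 - x) + (y - z.2))) / (s * s) := by
        rw [hw1, hw2]; field_simp
      rw [this, div_le_one hss]
      exact h3
    have hmem := (convex_convexHull ℝ ({(x, y), (x + s, y), (x, y - s)} : Set (ℝ × ℝ))).sum_mem
      (t := (Finset.univ : Finset (Fin 3))) (w := ![1 - w1 - w2, w1, w2])
      (z := ![(x, y), (x + s, y), (x, y - s)]) ?_ ?_ ?_
    · have hz : z = ∑ i : Fin 3, (![1 - w1 - w2, w1, w2] i) • (![(x, y), (x + s, y), (x, y - s)] i) := by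
        rw [Fin.sum_univ_three]
        simp only [Matrix.cons_val_zero, Matrix.cons_val_one, Matrix.cons_val]
        refine Prod.ext ?_ ?_
        · simp only [Prod.fst_add, Prod.smul_fst, smul_eq_mul]
          linear_combination (-1 : ℝ) * e1
        · simp only [Prod.snd_add, Prod.smul_snd, smul_eq_mul]
          linear_combination (1 : ℝ) * e2
      rw [hz]
      exact hmem
    · intro i _
      fin_cases i
      · simp; linarith
      · simpa using p1
      · simpa using p2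
    · rw [Fin.sum_univ_three]
      simp
      ring
    · intro i _
      apply subset_convexHull
      fin_cases i <;> simp

/-- skew coordinates -/
noncomputable def Llin : (ℝ × ℝ) ≃ₗ[ℝ] EuclideanSpace ℝ (Fin 2) where
  toFun z := !₂[z.1 - z.2 / 2, Real.sqrt 3 / 2 * z.2]
  invFun v := (v 0 + v 1 / Real.sqrt 3, 2 / Real.sqrt 3 * v 1)
  map_add' z z' := by
    ext i
    fin_cases i
    · simp; ring
    · simp; ring
  map_smul' a z := by
    ext i
    fin_cases i
    · simp; ring
    · simp; ring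
  left_inv z := by
    have h3 : Real.sqrt 3 ≠ 0 := by positivity
    refine Prod.ext ?_ ?_
    · simp; field_simp; ring
    · simp; field_simp
  right_inv v := by
    have h3 : Real.sqrt 3 ≠ 0 := by positivity
    ext i
    fin_cases i
    · simp; field_simp; ring
    · simp; field_simp

noncomputable def L : (ℝ × ℝ) ≃L[ℝ] EuclideanSpace ℝ (Fin 2) := Llin.toContinuousLinearEquiv

lemma L_apply (z : ℝ × ℝ) : L z = !₂[z.1 - z.2 / 2, Real.sqrt 3 / 2 * z.2] := rfl

lemma dist_L (z z' : ℝ × ℝ) : dist (L z) (L z') =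
    Real.sqrt ((z.1 - z'.1)^2 - (z.1 - z'.1) * (z.2 - z'.2) + (z.2 - z'.2)^2) := by
  rw [EuclideanSpace.dist_eq, Fin.sum_univ_two, L_apply, L_apply]
  congr 1
  simp only [Real.dist_eq, sq_abs]
  simp
  have h3 : Real.sqrt 3 ^ 2 = 3 := Real.sq_sqrt (by norm_num)
  linear_combination ((z.2 - z'.2)^2 / 4) * h3

lemma hull_L (x y s : ℝ) (hs : s ≠ 0) :
    convexHull ℝ ({L (x, y), L (x + s, y), L (x, y - s)} : Set (EuclideanSpace ℝ (Fin 2))) =
      L '' tri (x, y, s) := by
  rw [← hull_eq_tri x y s hs]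
  have := (Llin : (ℝ × ℝ) →ₗ[ℝ] EuclideanSpace ℝ (Fin 2)).image_convexHull
    ({(x, y), (x + s, y), (x, y - s)} : Set (ℝ × ℝ))
  have h2 : (L '' convexHull ℝ ({(x, y), (x + s, y), (x, y - s)} : Set (ℝ × ℝ))) =
    ((Llin : (ℝ × ℝ) →ₗ[ℝ] EuclideanSpace ℝ (Fin 2)) ''
      convexHull ℝ ({(x, y), (x + s, y), (x, y - s)} : Set (ℝ × ℝ))) := rfl
  rw [h2, this]
  congr 1
  rw [Set.image_insert_eq, Set.image_insert_eq, Set.image_singleton]
  rfl

theorem main :
    ∃ (a b c : ℕ → EuclideanSpace ℝ (Fin 2)) (s : ℕ → ℝ),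
      (∀ n, 0 < s n ∧ dist (a n) (b n) = s n ∧ dist (b n) (c n) = s n ∧
        dist (c n) (a n) = s n) ∧
      Function.Injective s ∧
      (⋃ n, convexHull ℝ ({a n, b n, c n} : Set (EuclideanSpace ℝ (Fin 2)))) = Set.univ ∧
      ∀ m n, m ≠ n →
        Disjoint
          (interior (convexHull ℝ ({a m, b m, c m} : Set (EuclideanSpace ℝ (Fin 2)))))
          (interior (convexHull ℝ ({a n, b n, c n} : Set (EuclideanSpace ℝ (Fin 2))))) := by
  obtain ⟨t, h0, h1, h2, h3⟩ := plane
  refine ⟨fun n => L ((t n).1, (t n).2.1), fun n => L ((t n).1 + (t n).2.2, (t n).2.1),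
    fun n => L ((t n).1, (t n).2.1 - (t n).2.2), fun n => |(t n).2.2|, ?_, ?_, ?_, ?_⟩
  · intro n
    refine ⟨abs_pos.mpr (h0 n), ?_, ?_, ?_⟩
    · simp only
      rw [dist_L, ← Real.sqrt_sq_eq_abs]
      congr 1
      simp only
      ring
    · simp only
      rw [dist_L, ← Real.sqrt_sq_eq_abs]
      congr 1
      simp only
      ring
    · simp only
      rw [dist_L, ← Real.sqrt_sq_eq_abs]
      congr 1
      simp only
      ring
  · intro m n hmn
    by_contra hne
    exact h1 m n hne hmn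
  · rw [Set.eq_univ_iff_forall]
    intro v
    obtain ⟨n, hn⟩ := h2 (L.symm v)
    rw [Set.mem_iUnion]
    refine ⟨n, ?_⟩
    rw [hull_L _ _ _ (h0 n)]
    exact ⟨L.symm v, hn, L.apply_symm_apply v⟩
  · intro m n hmn
    rw [hull_L _ _ _ (h0 m), hull_L _ _ _ (h0 n)]
    have hi : ∀ A : Set (ℝ × ℝ), interior (L '' A) = L '' interior A := by
      intro A
      exact (L.toHomeomorph.image_interior A).symm
    rw [hi, hi]
    exact (Set.disjoint_image_iff L.injective).mpr (h3 m n hmn)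

end Pool.Agent.H342R2.EqTri
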